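import Mathlib
import Pool.Agent.Q113.NW.Witt

set_option autoImplicit false

open Pool.Agent.Q113.NW

/-- Over every field of characteristic zero there is an infinite-dimensional Lie algebra that
satisfies the maximal condition on subalgebras and is residually nilpotent. -/
theorem Pool.Agent.Results.MP_d0ec72_al.Witt.result.{u} (k : Type u) [Field k] [CharZero k] :
    ∃ (L : Type u) (_ : LieRing L) (_ : LieAlgebra k L),
      ¬ Module.Finite k L ∧
      (∀ f : ℕ →o LieSubalgebra k L, ∃ n, ∀ m, n ≤ m → f n = f m) ∧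
      (∀ x : L, x ≠ 0 → ∃ I : LieIdeal k L, x ∉ I ∧ LieRing.IsNilpotent (L ⧸ I)) := by
  refine ⟨W k, inferInstance, inferInstance, not_finite, max_cond, fun x hx => ?_⟩
  have h1 : ∃ n, x ∉ LieModule.lowerCentralSeries k (W k) (W k) n := by
    by_contra hcon
    push Not at hcon
    apply hx
    have h2 : x ∈ ⨅ n, LieModule.lowerCentralSeries k (W k) (W k) n := by
      rw [LieSubmodule.mem_iInf]
      exact hcon
    rwa [iInf_lcs, LieSubmodule.mem_bot] at h2
  obtain ⟨n, hn⟩ := h1
  refine ⟨LieModule.lowerCentralSeries k (W k) (W k) n, hn, ?_⟩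
  set I : LieIdeal k (W k) := LieModule.lowerCentralSeries k (W k) (W k) n with hI
  rw [LieRing.IsNilpotent, LieModule.isNilpotent_iff k]
  refine ⟨n, ?_⟩
  let π : W k →ₗ⁅k⁆ (W k ⧸ I) :=
    { (LieSubmodule.Quotient.mk' I : W k →ₗ[k] (W k ⧸ I)) with
      map_lie' := fun {x y} => rfl }
  have hπ : Function.Surjective π := LieSubmodule.Quotient.surjective_mk' I
  rw [← LieIdeal.lowerCentralSeries_map_eq n hπ, eq_bot_iff, LieIdeal.map_le_iff_le_comap]
  intro y hy
  rw [LieIdeal.mem_comap, LieSubmodule.mem_bot]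
  exact (LieSubmodule.Quotient.mk_eq_zero I).mpr hy
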